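import Mathlib
import Pool.Agent.Helper376.CL.Defs
import Pool.Agent.Helper376.CL.Asm

/-! The group `F₂ × ℤ` has two Z-structure boundaries which are not cell-like equivalent. -/

namespace Pool.Agent.Results.MP_ebfc1a_gt.NotCellLikeEquivalent

open Pool.Agent.Helper376.CL

/-- Sanity check: a one-point space has the shape of a point. -/
theorem hasTrivialShape_point (C : Type) [TopologicalSpace C] [Unique C] : HasTrivialShape C := by
  refine ⟨⟨default⟩, fun _ => 0, ?_, ?_⟩
  · exact Continuous.isClosedEmbedding continuous_const (fun a b _ => Subsingleton.elim a b)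
  · intro U _ f _
    refine ⟨f default, ?_⟩
    have : f = ContinuousMap.const C (f default) := by
      ext c; rw [Unique.eq_default c]; rfl
    rw [this]
    exact ContinuousMap.Homotopic.refl _

/-- Sanity check: the identity map is cell-like. -/
theorem isCellLike_id (Z : Type) [TopologicalSpace Z] : IsCellLike (id : Z → Z) := by
  refine ⟨continuous_id, fun z => ?_⟩
  haveI : Unique ↥((id : Z → Z) ⁻¹' {z}) :=
    { default := ⟨z, rfl⟩, uniq := fun a => Subtype.ext a.2 }
  exact hasTrivialShape_point _

/-- Sanity check: cell-like equivalence is reflexive on compact Hausdorff spaces. -/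
theorem cellLikeEquivalent_refl (Z : Type) [TopologicalSpace Z] [CompactSpace Z] [T2Space Z] :
    CellLikeEquivalent Z Z :=
  ⟨Z, inferInstance, inferInstance, inferInstance, id, id, isCellLike_id Z, isCellLike_id Z⟩

/-- Why compactness of `W` belongs to the definition of cell-like equivalence (as usual, where
cell-like maps are proper): without it any two spaces with a bijection between them, for example any
two uncountable compact metrizable spaces, would be cell-like equivalent through a discrete space. -/
theorem degenerate_without_compactness (Z₁ Z₂ : Type) [TopologicalSpace Z₁] [TopologicalSpace Z₂]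
    (e : Z₁ ≃ Z₂) : ∃ (W : Type) (_ : TopologicalSpace W) (f : W → Z₁) (g : W → Z₂),
      IsCellLike f ∧ IsCellLike g := by
  refine ⟨Z₁, ⊥, id, e, ?_, ?_⟩
  · letI : TopologicalSpace Z₁ := ⊥
    refine ⟨continuous_bot, fun z => ?_⟩
    haveI : Unique ↥((id : Z₁ → Z₁) ⁻¹' {z}) :=
      { default := ⟨z, rfl⟩, uniq := fun a => Subtype.ext a.2 }
    exact hasTrivialShape_point _
  · letI : TopologicalSpace Z₁ := ⊥
    refine ⟨continuous_bot, fun z => ?_⟩
    haveI : Unique ↥((e : Z₁ → Z₂) ⁻¹' {z}) :=
      { default := ⟨e.symm z, e.apply_symm_apply z⟩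
        uniq := fun a => Subtype.ext (e.injective (a.2.trans (e.apply_symm_apply z).symm)) }
    exact hasTrivialShape_point _

theorem result : ∃ (Z₁ Z₂ : Type) (_ : TopologicalSpace Z₁) (_ : TopologicalSpace Z₂),
    IsZBoundary (FreeGroup (Fin 2) × Multiplicative ℤ) Z₁ ∧
    IsZBoundary (FreeGroup (Fin 2) × Multiplicative ℤ) Z₂ ∧ ¬ CellLikeEquivalent Z₁ Z₂ :=
  main_result

end Pool.Agent.Results.MP_ebfc1a_gt.NotCellLikeEquivalent
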